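import Pool.Agent.W674.LVF.Stm

/-!
Disjoint bi-Lipschitz parametrisations (part S_disj of helper674's project on MP_2c180d_gt):
density points, metric derivatives and transition maps.
-/

set_option autoImplicit false

open MeasureTheory Set Filter Topology Asymptotics
open scoped ENNReal NNReal
open Pool.Agent.W674.LVR Pool.Agent.W674.LVF

namespace Pool.Agent.W63.LVFdisj

variable {k : ℕ}

/-- the density property of `S_dens` -/
def DP (s : Set (Rn k)) (u : Rn k) : Prop :=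
  ∀ a : Rn k → ℝ, Continuous a → (∀ (r : ℝ) (w : Rn k), 0 < r → a (r • w) = r * a w) →
    (∀ ε : ℝ, 0 < ε → ∀ᶠ w in 𝓝[s] u, a (w - u) ≤ ε * ‖w - u‖) → ∀ w, a w ≤ 0

theorem DP.mono {s t : Set (Rn k)} {u : Rn k} (h : DP s u) (hst : s ⊆ t) : DP t u :=
  fun a ha hr he => h a ha hr fun ε hε => (he ε hε).filter_mono (nhdsWithin_mono u hst)

theorem DP.le_zero {s : Set (Rn k)} {u : Rn k} (h : DP s u) {a : Rn k → ℝ} (ha : Continuous a)
    (hr : ∀ (r : ℝ) (w : Rn k), 0 < r → a (r • w) = r * a w) {b : Rn k → ℝ}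
    (hb : b =o[𝓝[s] u] (fun w => w - u)) (hab : ∀ w ∈ s, a (w - u) ≤ b w) : ∀ w, a w ≤ 0 := by
  refine h a ha hr fun ε hε => ?_
  filter_upwards [hb.bound hε, self_mem_nhdsWithin] with w hw hws
  exact (hab w hws).trans ((le_abs_self _).trans hw)

theorem DP.eq_zero {s : Set (Rn k)} {u : Rn k} (h : DP s u) {a : Rn k → ℝ} (ha : Continuous a)
    (hr : ∀ (r : ℝ) (w : Rn k), 0 < r → a (r • w) = r * a w)
    (hb : (fun w => a (w - u)) =o[𝓝[s] u] (fun w => w - u)) : ∀ w, a w = 0 := by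
  intro w
  refine le_antisymm (h.le_zero ha hr hb (fun _ _ => le_rfl) w) ?_
  have h2 := h.le_zero (a := fun w => - a w) ha.neg (fun r w h0 => by rw [hr r w h0]; ring)
    hb.neg_left (fun _ _ => le_rfl) w
  linarith

theorem DP.unique {s : Set (Rn k)} {u : Rn k} (h : DP s u) {q : Rn k → ℝ}
    {D₁ D₂ : Rn k →L[ℝ] ℝ} (h1 : HasFDerivWithinAt q D₁ s u) (h2 : HasFDerivWithinAt q D₂ s u) :
    D₁ = D₂ := by
  have h3 : (fun w => (D₁ - D₂) (w - u)) =o[𝓝[s] u] (fun w => w - u) := by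
    have h4 := h2.isLittleO.sub h1.isLittleO
    refine h4.congr_left fun w => ?_
    simp only [sub_apply]
    ring
  have h5 := h.eq_zero (a := fun w => (D₁ - D₂) w) (D₁ - D₂).continuous
    (fun r w _ => by rw [map_smul, smul_eq_mul]) h3
  ext1 w
  have := h5 w
  rw [sub_apply] at this
  linarith

theorem seminorm_le (N : Seminorm ℝ (Rn k)) (w : Rn k) :
    N w ≤ (∑ i, N (Pi.single i 1)) * ‖w‖ := by
  have h1 : w = ∑ i, w i • (Pi.single i (1 : ℝ) : Rn k) := by
    ext j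
    simp [Finset.sum_apply, Pi.single_apply]
  calc N w = N (∑ i, w i • (Pi.single i (1 : ℝ) : Rn k)) := by rw [← h1]
    _ ≤ ∑ i, N (w i • (Pi.single i (1 : ℝ) : Rn k)) := by
        refine Finset.le_sum_of_subadditive N (map_zero N).le (fun x y => map_add_le_add N x y) _ _
    _ ≤ ∑ i, N (Pi.single i 1) * ‖w‖ := by
        refine Finset.sum_le_sum fun i _ => ?_
        rw [map_smul_eq_mul, mul_comm]
        exact mul_le_mul_of_nonneg_left (norm_le_pi_norm w i) (apply_nonneg N _)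
    _ = (∑ i, N (Pi.single i 1)) * ‖w‖ := by rw [Finset.sum_mul]

theorem seminorm_continuous (N : Seminorm ℝ (Rn k)) : Continuous N := by
  have h : LipschitzWith ⟨∑ i, N (Pi.single i 1), Finset.sum_nonneg fun i _ => apply_nonneg N _⟩
      N := by
    refine LipschitzWith.of_dist_le_mul fun x y => ?_
    rw [Real.dist_eq, dist_eq_norm]
    exact (abs_sub_map_le_sub N x y).trans (seminorm_le N _)
  exact h.continuous

theorem seminorm_homog (N : Seminorm ℝ (Rn k)) (r : ℝ) (w : Rn k) (hr : 0 < r) :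
    N (r • w) = r * N w := by
  rw [map_smul_eq_mul, Real.norm_of_nonneg hr.le]

/-- Lipschitz functions composed with the parametrisation -/
theorem deriv_le {E : Type} [PseudoMetricSpace E] {A : Set (Rn k)} {φ : Rn k → E}
    {N : Seminorm ℝ (Rn k)} {u : Rn k} (hDP : DP A u) (hMD : IsMD φ A u N) {q : E → ℝ} {L : ℝ≥0}
    (hq : LipschitzWith L q) {M : Rn k →L[ℝ] ℝ} (hM : HasFDerivWithinAt (q ∘ φ) M A u)
    (w : Rn k) : |M w| ≤ L * N w := by
  have key : ∀ w, M w - L * N w ≤ 0 := by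
    refine hDP.le_zero (a := fun w => M w - L * N w)
      (M.continuous.sub (continuous_const.mul (seminorm_continuous N))) ?_
      (b := fun w => -((q ∘ φ) w - (q ∘ φ) u - M (w - u)) + L * (dist (φ w) (φ u) - N (w - u)))
      ?_ ?_
    · intro r w hr
      rw [map_smul, smul_eq_mul, seminorm_homog N r w hr]
      ring
    · exact hM.isLittleO.neg_left.add (hMD.const_mul_left _)
    · intro w _
      have h1 := hq.dist_le_mul (φ w) (φ u)
      rw [Real.dist_eq] at h1
      have h2 := le_abs_self (q (φ w) - q (φ u))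
      simp only [Function.comp]
      linarith
  have h1 := key w
  have h2 := key (-w)
  rw [map_neg, map_neg_eq_map] at h2
  rw [abs_le]
  constructor <;> linarith

theorem isNrm_norm : IsNrm (normSeminorm ℝ (Rn k)) := fun _ hw => norm_eq_zero.1 hw

/-- bound of a determinant by the volume functional -/
theorem jac_bound {J : Seminorm ℝ (Rn k) → ℝ≥0∞} (hJ : VolFun k J) (M : Fin k → Rn k →L[ℝ] ℝ)
    (N : Seminorm ℝ (Rn k)) (L : ℝ≥0) (hL : 0 < L) (hM : ∀ j w, |M j w| ≤ L * N w) :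
    ENNReal.ofReal |(Matrix.of fun i j => M i (Pi.single j 1)).det| * J (normSeminorm ℝ (Rn k)) ≤
      ENNReal.ofReal ((L : ℝ) ^ k) * J N := by
  set X : Matrix (Fin k) (Fin k) ℝ := Matrix.of fun i j => M i (Pi.single j 1) with hXdef
  by_cases hdet : X.det = 0
  · rw [hdet]
    simp
  have hX : ∀ w i, Matrix.toLin' X w i = M i w := by
    intro w i
    have h1 : w = ∑ j, w j • (Pi.single j (1 : ℝ) : Rn k) := by
      ext j
      simp [Finset.sum_apply, Pi.single_apply]
    rw [Matrix.toLin'_apply, Matrix.mulVec, dotProduct]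
    conv_rhs => rw [h1, map_sum]
    refine Finset.sum_congr rfl fun j _ => ?_
    rw [map_smul, smul_eq_mul, mul_comm, hXdef, Matrix.of_apply]
  have hle' : ∀ w, ‖Matrix.toLin' X w‖ ≤ L * N w := by
    intro w
    refine (pi_norm_le_iff_of_nonneg (mul_nonneg L.2 (apply_nonneg N w))).2 fun i => ?_
    rw [hX, Real.norm_eq_abs]
    exact hM i w
  have hle : (normSeminorm ℝ (Rn k)).comp (Matrix.toLin' X) ≤
      N.comp ((L : ℝ) • (LinearMap.id : Rn k →ₗ[ℝ] Rn k)) := by
    intro w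
    rw [Seminorm.comp_apply, Seminorm.comp_apply, coe_normSeminorm, LinearMap.smul_apply,
      LinearMap.id_apply, seminorm_homog N _ _ (by exact_mod_cast hL)]
    exact hle' w
  have hN : IsNrm N := by
    intro w hw
    have h1 := hle' w
    rw [hw, mul_zero] at h1
    have h2 : Matrix.toLin' X w = 0 := norm_le_zero_iff.1 h1
    rw [Matrix.toLin'_apply] at h2
    exact Matrix.eq_zero_of_mulVec_eq_zero hdet h2
  have h1 := hJ.comp (normSeminorm ℝ (Rn k)) (Matrix.toLin' X) isNrm_norm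
    (by rwa [LinearMap.det_toLin'])
  have h3 : LinearMap.det ((L : ℝ) • (LinearMap.id : Rn k →ₗ[ℝ] Rn k)) = (L : ℝ) ^ k := by
    rw [LinearMap.det_smul, LinearMap.det_id, Module.finrank_fin_fun, mul_one]
  have hL' : (0 : ℝ) < L := by exact_mod_cast hL
  have h2 := hJ.comp N ((L : ℝ) • (LinearMap.id : Rn k →ₗ[ℝ] Rn k)) hN (by rw [h3]; positivity)
  rw [LinearMap.det_toLin'] at h1
  rw [← h1]
  refine (hJ.mono _ _ hle).trans_eq ?_
  rw [h2, h3, abs_of_pos (by positivity)]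

theorem exists_trans {E : Type} [PseudoMetricSpace E] {A A' : Set (Rn k)} {φ φ' : Rn k → E}
    (h : BiLipOn φ A) (h' : BiLipOn φ' A') {V : Set (Rn k)} (hV : V ⊆ A)
    (hm : ∀ v ∈ V, φ v ∈ φ' '' A') :
    ∃ τ : Rn k → Rn k, (∃ C : ℝ≥0, LipschitzWith C τ) ∧ ∀ v ∈ V, τ v ∈ A' ∧ φ' (τ v) = φ v := by
  classical
  obtain ⟨K, hK⟩ := h
  obtain ⟨K', hK'⟩ := h'
  have h1 : ∀ v, ∃ w, v ∈ V → w ∈ A' ∧ φ' w = φ v := by
    intro v
    by_cases hv : v ∈ V
    · obtain ⟨w, hw, hw'⟩ := hm v hv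
      exact ⟨w, fun _ => ⟨hw, hw'⟩⟩
    · exact ⟨0, fun h => absurd h hv⟩
  choose σ hσ using h1
  have hlip : LipschitzOnWith (K' * K) σ V := by
    refine LipschitzOnWith.of_dist_le_mul fun v hv w hw => ?_
    calc dist (σ v) (σ w) ≤ K' * dist (φ' (σ v)) (φ' (σ w)) :=
          (hK' _ (hσ v hv).1 _ (hσ w hw).1).2
      _ = K' * dist (φ v) (φ w) := by rw [(hσ v hv).2, (hσ w hw).2]
      _ ≤ K' * (K * dist v w) :=
          mul_le_mul_of_nonneg_left (hK v (hV hv) w (hV hw)).1 K'.coe_nonneg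
      _ = _ := by push_cast; ring
  obtain ⟨τ, hτ, he⟩ := hlip.extend_pi
  refine ⟨τ, ⟨_, hτ⟩, fun v hv => ?_⟩
  rw [← he hv]
  exact hσ v hv

theorem md_comp {E : Type} [PseudoMetricSpace E] {A A' V : Set (Rn k)} {φ φ' : Rn k → E}
    {τ : Rn k → Rn k} {C : ℝ≥0} (hτ : LipschitzWith C τ) (hV : V ⊆ A)
    (hτV : ∀ v ∈ V, τ v ∈ A' ∧ φ' (τ v) = φ v) {v : Rn k} (hv : v ∈ V) {D : Rn k →L[ℝ] Rn k}
    (hD : HasFDerivAt τ D v) (hDP : DP V v) {N N' : Seminorm ℝ (Rn k)} (hMD : IsMD φ A v N)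
    (hMD' : IsMD φ' A' (τ v) N') : N = N'.comp (D : Rn k →ₗ[ℝ] Rn k) := by
  have h0 : Tendsto τ (𝓝[V] v) (𝓝[A'] (τ v)) :=
    tendsto_nhdsWithin_iff.2 ⟨hτ.continuous.continuousAt.tendsto.mono_left nhdsWithin_le_nhds,
      eventually_of_mem self_mem_nhdsWithin fun w hw => (hτV w hw).1⟩
  have h1 : (fun w => dist (φ w) (φ v) - N (w - v)) =o[𝓝[V] v] (fun w => w - v) :=
    hMD.mono (nhdsWithin_mono v hV)
  have h2 : (fun w => dist (φ' (τ w)) (φ' (τ v)) - N' (τ w - τ v)) =o[𝓝[V] v]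
      (fun w => w - v) := by
    have h3 := hMD'.comp_tendsto h0
    refine h3.trans_isBigO ?_
    refine IsBigO.of_bound C (Eventually.of_forall fun w => ?_)
    have := hτ.dist_le_mul w v
    rwa [dist_eq_norm, dist_eq_norm] at this
  have h4 : (fun w => N' (τ w - τ v) - N' (D (w - v))) =o[𝓝[V] v] (fun w => w - v) := by
    have h5 : (fun w => τ w - τ v - D (w - v)) =o[𝓝[V] v] (fun w => w - v) :=
      hD.isLittleO.mono nhdsWithin_le_nhds
    refine IsBigO.trans_isLittleO ?_ h5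
    refine IsBigO.of_bound (∑ i, N' (Pi.single i 1)) (Eventually.of_forall fun w => ?_)
    rw [Real.norm_eq_abs]
    exact (abs_sub_map_le_sub N' _ _).trans (seminorm_le N' _)
  have h6 : (fun w => N (w - v) - N' (D (w - v))) =o[𝓝[V] v] (fun w => w - v) := by
    have h7 := (h2.sub h1).add h4
    refine h7.congr' ?_ EventuallyEq.rfl
    filter_upwards [self_mem_nhdsWithin] with w hw
    rw [(hτV w hw).2, (hτV v hv).2]
    ring
  ext w
  have h8 := hDP.eq_zero (a := fun w => N w - N' (D w))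
    ((seminorm_continuous N).sub ((seminorm_continuous N').comp D.continuous))
    (fun r w hr => by
      rw [D.map_smul, seminorm_homog N r w hr, seminorm_homog N' r (D w) hr]
      ring) h6 w
  rw [Seminorm.comp_apply]
  exact sub_eq_zero.1 h8

theorem norm_le_of_low {V : Set (Rn k)} {τ : Rn k → Rn k} {K : ℝ≥0} {v : Rn k}
    (hlow : ∀ w ∈ V, dist w v ≤ K * dist (τ w) (τ v)) {D : Rn k →L[ℝ] Rn k}
    (hD : HasFDerivAt τ D v) (hDP : DP V v) (w : Rn k) : ‖w‖ ≤ K * ‖D w‖ := by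
  have h5 : (fun w => τ w - τ v - D (w - v)) =o[𝓝[V] v] (fun w => w - v) :=
    hD.isLittleO.mono nhdsWithin_le_nhds
  have h := hDP.le_zero (a := fun w => ‖w‖ - K * ‖D w‖)
    (continuous_norm.sub (continuous_const.mul (continuous_norm.comp D.continuous)))
    (fun r w hr => by
      rw [map_smul, norm_smul, norm_smul, Real.norm_of_nonneg hr.le]
      ring)
    (b := fun w => K * ‖τ w - τ v - D (w - v)‖) (h5.norm_left.const_mul_left _) (by
      intro w hw
      have h1 := hlow w hw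
      rw [dist_eq_norm, dist_eq_norm] at h1
      have h2 : ‖τ w - τ v‖ ≤ ‖τ w - τ v - D (w - v)‖ + ‖D (w - v)‖ := by
        have := norm_add_le (τ w - τ v - D (w - v)) (D (w - v))
        rwa [sub_add_cancel] at this
      have h3 := mul_le_mul_of_nonneg_left h2 K.coe_nonneg
      rw [mul_add] at h3
      linarith [h1.trans h3]) w
  linarith

theorem isNrm_of_low {E : Type} [PseudoMetricSpace E] {A : Set (Rn k)} {φ : Rn k → E} {K : ℝ≥0}
    {u : Rn k} (hlow : ∀ w ∈ A, dist w u ≤ K * dist (φ w) (φ u)) {N : Seminorm ℝ (Rn k)}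
    (hMD : IsMD φ A u N) (hDP : DP A u) : IsNrm N := by
  intro w hw
  have h := hDP.le_zero (a := fun w => ‖w‖ - K * N w)
    (continuous_norm.sub (continuous_const.mul (seminorm_continuous N)))
    (fun r w hr => by
      rw [norm_smul, Real.norm_of_nonneg hr.le, seminorm_homog N r w hr]
      ring)
    (b := fun w => K * (dist (φ w) (φ u) - N (w - u))) (hMD.const_mul_left _) (by
      intro w hw
      have h1 := hlow w hw
      rw [dist_eq_norm] at h1
      rw [mul_sub]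
      linarith) w
  simp only [hw, mul_zero, sub_zero] at h
  exact norm_le_zero_iff.1 h

theorem det_ne_zero_of_low {K : ℝ≥0} {D : Rn k →L[ℝ] Rn k} (h : ∀ w, ‖w‖ ≤ K * ‖D w‖) :
    D.det ≠ 0 := by
  intro h0
  have h1 := LinearMap.bot_lt_ker_of_det_eq_zero (f := (D : Rn k →ₗ[ℝ] Rn k)) h0
  refine h1.ne' ?_
  rw [LinearMap.ker_eq_bot']
  intro w hw
  have h2 := h w
  have h3 : D w = 0 := hw
  rw [h3, norm_zero, mul_zero] at h2
  exact norm_le_zero_iff.1 h2

/-- the chain rule for the Jacobian determinant within sets -/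
theorem jacW_comp {A A' V : Set (Rn k)} {q q' : Fin k → Rn k → ℝ} {τ : Rn k → Rn k}
    (hV : V ⊆ A) (hτV : ∀ v ∈ V, τ v ∈ A' ∧ ∀ j, q' j (τ v) = q j v) {v : Rn k} (hv : v ∈ V)
    {D : Rn k →L[ℝ] Rn k} (hD : HasFDerivAt τ D v) (hDP : DP V v)
    (hq : ∀ j, DifferentiableWithinAt ℝ (q j) A v)
    (hq' : ∀ j, DifferentiableWithinAt ℝ (q' j) A' (τ v)) :
    jacW A q v = jacW A' q' (τ v) * D.det := by
  have h1 : ∀ j, fderivWithin ℝ (q j) A v = (fderivWithin ℝ (q' j) A' (τ v)).comp D := by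
    intro j
    have h2 := (hq j).hasFDerivWithinAt.mono hV
    have h3 := (hq' j).hasFDerivWithinAt.comp v hD.hasFDerivWithinAt (s := V)
      (fun w hw => (hτV w hw).1)
    have h4 : HasFDerivWithinAt (q j) ((fderivWithin ℝ (q' j) A' (τ v)).comp D) V v :=
      h3.congr (fun w hw => ((hτV w hw).2 j).symm) ((hτV v hv).2 j).symm
    exact hDP.unique h2 h4
  have h5 : (Matrix.of fun i j => fderivWithin ℝ (q i) A v (Pi.single j 1)) =
      (Matrix.of fun i j => fderivWithin ℝ (q' i) A' (τ v) (Pi.single j 1)) *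
        LinearMap.toMatrix' (D : Rn k →ₗ[ℝ] Rn k) := by
    ext a b
    rw [Matrix.mul_apply, Matrix.of_apply, h1]
    have h6 : D (Pi.single b 1) = ∑ c, D (Pi.single b 1) c • (Pi.single c (1 : ℝ) : Rn k) := by
      ext c
      simp [Finset.sum_apply, Pi.single_apply]
    rw [ContinuousLinearMap.comp_apply]
    conv_lhs => rw [h6, map_sum]
    refine Finset.sum_congr rfl fun c _ => ?_
    rw [map_smul, smul_eq_mul, mul_comm, Matrix.of_apply, LinearMap.toMatrix'_apply]
    rfl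
  rw [jacW, jacW, h5, Matrix.det_mul, LinearMap.det_toMatrix']

end Pool.Agent.W63.LVFdisj
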