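import Pool.Agent.W63.LVF.DisjA

/-!
Disjoint bi-Lipschitz parametrisations, part B: almost everywhere statements and changes of
variables.
-/

set_option autoImplicit false

open MeasureTheory Set Filter Topology Asymptotics
open scoped ENNReal NNReal
open Pool.Agent.W674.LVR Pool.Agent.W674.LVF

namespace Pool.Agent.W63.LVFdisj

variable {k : ℕ}

theorem jacW_aemeasurable (hd : S_dens) {A : Set (Rn k)} (hA : MeasurableSet A)
    {q : Fin k → Rn k → ℝ} (hq : ∀ j, ∃ K : ℝ≥0, LipschitzOnWith K (q j) A) :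
    AEMeasurable (jacW A q) (volume.restrict A) := by
  choose K hK using hq
  choose Q hQ hQe using fun j => (hK j).extend_real
  refine ⟨fun u => (Matrix.of fun i j => fderiv ℝ (Q i) u (Pi.single j 1)).det, ?_, ?_⟩
  · simp only [Matrix.det_apply]
    refine Finset.measurable_sum _ fun σ _ => ?_
    refine Measurable.const_smul (Finset.measurable_prod _ fun i _ => ?_) _
    exact measurable_fderiv_apply_const ℝ (Q (σ i)) (Pi.single i 1)
  · filter_upwards [hd k A hA, ae_all_iff.2 fun j => (hK j).ae_differentiableWithinAt hA,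
      ae_restrict_of_ae (ae_all_iff.2 fun j => (hQ j).ae_differentiableAt),
      ae_restrict_mem hA] with u h1 h2 h3 h4
    have h5 : ∀ j, fderivWithin ℝ (q j) A u = fderiv ℝ (Q j) u := fun j =>
      DP.unique h1 (h2 j).hasFDerivWithinAt
        ((h3 j).hasFDerivAt.hasFDerivWithinAt.congr (fun w hw => hQe j hw) (hQe j h4))
    simp only [jacW, h5]

theorem jacW_subset (hd : S_dens) {A B : Set (Rn k)} (hA : MeasurableSet A)
    (hB : MeasurableSet B) (hBA : B ⊆ A) {q : Fin k → Rn k → ℝ}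
    (hq : ∀ j, ∃ K : ℝ≥0, LipschitzOnWith K (q j) A) :
    ∀ᵐ u ∂(volume.restrict B), jacW B q u = jacW A q u := by
  choose K hK using hq
  filter_upwards [hd k B hB, ae_restrict_of_ae_restrict_of_subset hBA
    (ae_all_iff.2 fun j => (hK j).ae_differentiableWithinAt hA)] with u h1 h2
  have h5 : ∀ j, fderivWithin ℝ (q j) B u = fderivWithin ℝ (q j) A u := fun j =>
    DP.unique h1 ((h2 j).mono hBA).hasFDerivWithinAt ((h2 j).hasFDerivWithinAt.mono hBA)
  simp only [jacW, h5]

/-- transition maps: almost everywhere statements -/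
theorem trans_ae {E : Type} [PseudoMetricSpace E] (hd : S_dens) (hn : S_null)
    {A A' V : Set (Rn k)} {φ φ' : Rn k → E} {N N' : Rn k → Seminorm ℝ (Rn k)}
    (hA' : MeasurableSet A') (hVm : MeasurableSet V) (hV : V ⊆ A) (h : BiLipOn φ A)
    (h' : BiLipOn φ' A') {τ : Rn k → Rn k} {C : ℝ≥0} (hτ : LipschitzWith C τ)
    (hτV : ∀ v ∈ V, τ v ∈ A' ∧ φ' (τ v) = φ v)
    (hMD : ∀ᵐ u ∂(volume.restrict A), IsMD φ A u (N u))
    (hMD' : ∀ᵐ u ∂(volume.restrict A'), IsMD φ' A' u (N' u))
    {P : Rn k → Prop} (hP : ∀ᵐ u ∂(volume.restrict A'), P u) :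
    ∀ᵐ v ∂(volume.restrict V), HasFDerivAt τ (fderiv ℝ τ v) v ∧ (fderiv ℝ τ v).det ≠ 0 ∧
      DP V v ∧ P (τ v) ∧ N v = (N' (τ v)).comp (fderiv ℝ τ v : Rn k →ₗ[ℝ] Rn k) ∧
      IsNrm (N' (τ v)) := by
  obtain ⟨K, hK⟩ := h
  obtain ⟨K', hK'⟩ := h'
  have hdiff : ∀ᵐ v ∂(volume.restrict V), DifferentiableAt ℝ τ v :=
    ae_restrict_of_ae hτ.ae_differentiableAt
  have hdet : ∀ᵐ v ∂(volume.restrict V), (fderiv ℝ τ v).det ≠ 0 := by
    filter_upwards [hdiff, hd k V hVm, ae_restrict_mem hVm] with v h1 h2 h3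
    refine det_ne_zero_of_low (K := K * K') fun w => norm_le_of_low (V := V) ?_ h1.hasFDerivAt h2 w
    intro w hw
    calc dist w v ≤ K * dist (φ w) (φ v) := (hK w (hV hw) v (hV h3)).2
      _ = K * dist (φ' (τ w)) (φ' (τ v)) := by rw [(hτV w hw).2, (hτV v h3).2]
      _ ≤ K * (K' * dist (τ w) (τ v)) :=
          mul_le_mul_of_nonneg_left (hK' _ (hτV w hw).1 _ (hτV v h3).1).1 K.coe_nonneg
      _ = _ := by push_cast; ring
  have hgood : ∀ᵐ u ∂(volume.restrict A'), P u ∧ DP A' u ∧ IsMD φ' A' u (N' u) := by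
    filter_upwards [hP, hd k A' hA', hMD'] with u h1 h2 h3 using ⟨h1, h2, h3⟩
  have hZ := (ae_restrict_iff' hA').1 hgood
  rw [ae_iff] at hZ
  have hs : MeasurableSet (V ∩ {v | DifferentiableAt ℝ τ v}) :=
    hVm.inter (measurableSet_of_differentiableAt ℝ τ)
  have h5 := hn k τ (fderiv ℝ τ) (V ∩ {v | DifferentiableAt ℝ τ v}) _ hs hZ
    (fun u hu => (DifferentiableAt.hasFDerivAt hu.2).hasFDerivWithinAt)
  rw [ae_restrict_iff' hs] at h5
  filter_upwards [hdiff, hdet, hd k V hVm, ae_restrict_mem hVm, ae_restrict_of_ae h5,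
    ae_restrict_of_ae_restrict_of_subset hV hMD] with v h1 h2 h3 h4 h6 h7
  have h8 : P (τ v) ∧ DP A' (τ v) ∧ IsMD φ' A' (τ v) (N' (τ v)) := by
    by_contra hcon
    exact h2 (h6 ⟨h4, h1⟩ (fun hc => hcon (hc (hτV v h4).1)))
  refine ⟨h1.hasFDerivAt, h2, h3, h8.1, ?_, ?_⟩
  · exact md_comp hτ hV hτV h4 h1.hasFDerivAt h3 h7 h8.2.2
  · exact isNrm_of_low (fun w hw => (hK' w hw _ (hτV v h4).1).2) h8.2.2 h8.2.1

/-- change of variables, as an identity of measures -/
theorem map_eq (ha : S_area) {τ : Rn k → Rn k} {C : ℝ≥0} (hτ : LipschitzWith C τ)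
    {V : Set (Rn k)} (hV : MeasurableSet V) (hinj : InjOn τ V) :
    Measure.map τ ((volume.restrict V).withDensity
      (fun v => ENNReal.ofReal |(fderiv ℝ τ v).det|)) = volume.restrict (τ '' V) := by
  ext S hS
  have hm := hτ.continuous.measurable
  have h1 := (ha k τ V (S.indicator 1) ⟨C, hτ⟩ hV hinj (measurable_one.indicator hS)).2
  rw [Measure.map_apply hm hS, withDensity_apply _ (hm hS), ← lintegral_indicator (hm hS)]
  rw [lintegral_indicator_one hS] at h1
  rw [h1]
  refine lintegral_congr fun v => ?_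
  by_cases hv : τ v ∈ S
  · rw [indicator_of_mem (show v ∈ τ ⁻¹' S from hv), indicator_of_mem hv, Pi.one_apply, mul_one]
  · rw [indicator_of_notMem (show v ∉ τ ⁻¹' S from hv), indicator_of_notMem hv, mul_zero]

theorem measurable_det (τ : Rn k → Rn k) : Measurable fun v => (fderiv ℝ τ v).det :=
  ContinuousLinearMap.continuous_det.measurable.comp (measurable_fderiv ℝ τ)

/-- change of variables for Bochner integrals -/
theorem integral_image (ha : S_area) {τ : Rn k → Rn k} {C : ℝ≥0} (hτ : LipschitzWith C τ)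
    {V : Set (Rn k)} (hV : MeasurableSet V) (hinj : InjOn τ V) {h : Rn k → ℝ}
    (hh : AEStronglyMeasurable h (volume.restrict (τ '' V))) :
    ∫ w in τ '' V, h w = ∫ v in V, |(fderiv ℝ τ v).det| * h (τ v) := by
  have hm := hτ.continuous.measurable
  have h1 := map_eq ha hτ hV hinj
  rw [← h1] at hh ⊢
  rw [integral_map hm.aemeasurable hh,
    integral_withDensity_eq_integral_toReal_smul (measurable_det τ).abs.ennreal_ofReal
      (Eventually.of_forall fun _ => ENNReal.ofReal_lt_top)]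
  refine integral_congr_ae (Eventually.of_forall fun v => ?_)
  simp only
  rw [ENNReal.toReal_ofReal (abs_nonneg _), smul_eq_mul]

theorem measurable_finsum {α ι : Type} [MeasurableSpace α] [Countable ι] {c : ι → α → ℤ}
    (hc : ∀ l, Measurable (c l)) : Measurable fun v => ∑ᶠ l, c l v := by
  classical
  obtain ⟨e, he⟩ := exists_injective_nat ι
  have hfin : ∀ n : ℕ, {l | e l < n}.Finite := fun n =>
    Set.Finite.preimage he.injOn (Set.finite_Iio n)
  set G : Set α := ⋃ n : ℕ, ⋂ l : ι, {v | n ≤ e l → c l v = 0} with hG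
  have hGm : MeasurableSet G := by
    refine MeasurableSet.iUnion fun n => MeasurableSet.iInter fun l => ?_
    by_cases hn : n ≤ e l
    · have : {v | n ≤ e l → c l v = 0} = c l ⁻¹' {0} := by
        ext v
        simp [hn]
      rw [this]
      exact hc l (MeasurableSet.singleton 0)
    · have : {v | n ≤ e l → c l v = 0} = univ := by
        ext v
        simp [hn]
      rw [this]
      exact MeasurableSet.univ
  have hFm : ∀ n : ℕ, Measurable (G.indicator fun v => ∑ l ∈ (hfin n).toFinset, c l v) := fun n =>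
    (Finset.measurable_sum _ fun l _ => hc l).indicator hGm
  refine measurable_of_tendsto_metrizable hFm ?_
  rw [tendsto_pi_nhds]
  intro v
  by_cases hv : v ∈ G
  · obtain ⟨n, hn⟩ := mem_iUnion.1 hv
    rw [mem_iInter] at hn
    refine tendsto_const_nhds.congr' ?_
    filter_upwards [eventually_ge_atTop n] with m hm
    rw [indicator_of_mem hv]
    refine finsum_eq_sum_of_support_subset _ fun l hl => ?_
    simp only [Set.Finite.coe_toFinset, mem_ofPred_eq]
    by_contra hcon
    exact hl (hn l (by omega))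
  · have h0 : ∑ᶠ l, c l v = 0 := by
      refine finsum_of_infinite_support fun hf => hv ?_
      obtain ⟨n, hn⟩ := (hf.image e).bddAbove
      refine mem_iUnion.2 ⟨n + 1, mem_iInter.2 fun l hl => ?_⟩
      by_contra hcon
      have := hn ⟨l, hcon, rfl⟩
      omega
    rw [h0]
    simp only [indicator_of_notMem hv]
    exact tendsto_const_nhds

theorem enorm_finsum_le {ι : Type} (c : ι → ℤ) :
    ‖((∑ᶠ l, c l : ℤ) : ℝ)‖ₑ ≤ ∑' l, ‖(c l : ℝ)‖ₑ := by
  classical
  by_cases hf : (Function.support c).Finite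
  · rw [finsum_eq_sum c hf]
    push_cast
    exact (enorm_sum_le _ _).trans (ENNReal.sum_le_tsum _)
  · rw [finsum_of_infinite_support hf]
    simp

theorem tsum_of_lt_top {ι : Type} (c : ι → ℤ) (h : ∑' l, ‖(c l : ℝ)‖ₑ < ⊤) :
    HasSum (fun l => (c l : ℝ)) ((∑ᶠ l, c l : ℤ) : ℝ) := by
  classical
  have hf : (Function.support c).Finite := by
    have h1 := ENNReal.finite_const_le_of_tsum_ne_top h.ne (ε := 1) one_ne_zero
    refine h1.subset fun l hl => ?_
    have h2 : (1 : ℝ) ≤ |(c l : ℝ)| := by exact_mod_cast Int.one_le_abs hl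
    have h3 : ‖(c l : ℝ)‖ₑ = ENNReal.ofReal |(c l : ℝ)| := by
      rw [← ofReal_norm, Real.norm_eq_abs]
    simp only [mem_ofPred_eq]
    rw [h3]
    exact ENNReal.one_le_ofReal.2 h2
  rw [finsum_eq_sum c hf]
  push_cast
  refine hasSum_sum_of_ne_finset_zero fun l hl => ?_
  have : c l = 0 := by
    by_contra hcon
    exact hl (hf.mem_toFinset.2 hcon)
  rw [this, Int.cast_zero]

theorem measurableSet_inter_preimage {E : Type} [PseudoMetricSpace E] [MeasurableSpace E]
    [BorelSpace E] {A : Set (Rn k)} (hA : MeasurableSet A) {φ : Rn k → E} (hφ : ContinuousOn φ A)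
    {S : Set E} (hS : MeasurableSet S) : MeasurableSet (A ∩ φ ⁻¹' S) := by
  have h1 : Measurable (A.domRestrict φ) :=
    (continuousOn_iff_continuous_domRestrict.1 hφ).measurable
  have h2 := hA.subtype_image (h1 hS)
  have h3 : A ∩ φ ⁻¹' S = Subtype.val '' (A.domRestrict φ ⁻¹' S) := by
    ext v
    constructor
    · rintro ⟨h3, h4⟩
      exact ⟨⟨v, h3⟩, h4, rfl⟩
    · rintro ⟨⟨w, hw⟩, h4, h5⟩
      simp only at h5
      subst h5
      exact ⟨hw, h4⟩
  rw [h3]
  exact h2

end Pool.Agent.W63.LVFdisj
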