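import Pool.Agent.W63.LVF.DisjB

/-!
Disjoint bi-Lipschitz parametrisations, part C: the disjointed charts.
-/

set_option autoImplicit false

open MeasureTheory Set Filter Topology Asymptotics
open scoped ENNReal NNReal
open Pool.Agent.W674.LVR Pool.Agent.W674.LVF

namespace Pool.Agent.W63.LVFdisj

set_option linter.unusedSectionVars false

variable {k : ℕ} {E : Type} [MetricSpace E]

/-- the disjointed charts with their transition maps -/
structure TD (D : Param k E) where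
  B : D.ι → Set (Rn k)
  τ : D.ι → D.ι → Rn k → Rn k
  C : D.ι → D.ι → ℝ≥0
  hB : ∀ i, MeasurableSet (B i)
  hBA : ∀ i, B i ⊆ D.A i
  hdisj : Pairwise fun i j => Disjoint (D.φ i '' B i) (D.φ j '' B j)
  hcov : ∀ l, ∀ w ∈ D.A l, ∃ i, D.φ l w ∈ D.φ i '' B i
  hV : ∀ i l, MeasurableSet (B i ∩ D.φ i ⁻¹' (D.φ l '' D.A l))
  hτL : ∀ i l, LipschitzWith (C i l) (τ i l)
  hτ : ∀ i l, ∀ v ∈ B i ∩ D.φ i ⁻¹' (D.φ l '' D.A l),
    τ i l v ∈ D.A l ∧ D.φ l (τ i l v) = D.φ i v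

theorem biLip_injOn {A : Set (Rn k)} {φ : Rn k → E} (h : BiLipOn φ A) : InjOn φ A := by
  obtain ⟨K, hK⟩ := h
  intro u hu v hv huv
  have := (hK u hu v hv).2
  rw [huv, dist_self, mul_zero] at this
  exact dist_le_zero.1 this

theorem exists_TD [MeasurableSpace E] [BorelSpace E] (D : Param k E) (hD : D.IsLip)
    (hbi : ∀ i, BiLipOn (D.φ i) (D.A i)) : Nonempty (TD D) := by
  classical
  have := hD.countable
  obtain ⟨e, he⟩ := exists_injective_nat D.ι
  have hcont : ∀ i, ContinuousOn (D.φ i) (D.A i) := fun i => (hD.lip i).choose_spec.continuousOn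
  have hI : ∀ l, MeasurableSet (D.φ l '' D.A l) := fun l =>
    (hD.measA l).image_of_continuousOn_injOn (hcont l) (biLip_injOn (hbi l))
  set S : D.ι → Set E := fun i => ⋃ (l : D.ι) (_ : e l < e i), D.φ l '' D.A l with hS
  have hSm : ∀ i, MeasurableSet (S i) := fun i =>
    MeasurableSet.iUnion fun l => MeasurableSet.iUnion fun _ => hI l
  set B : D.ι → Set (Rn k) := fun i => D.A i ∩ D.φ i ⁻¹' (S i)ᶜ with hB
  have hBm : ∀ i, MeasurableSet (B i) := fun i =>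
    measurableSet_inter_preimage (hD.measA i) (hcont i) (hSm i).compl
  have hBA : ∀ i, B i ⊆ D.A i := fun i => inter_subset_left
  have hV : ∀ i l, MeasurableSet (B i ∩ D.φ i ⁻¹' (D.φ l '' D.A l)) := fun i l =>
    measurableSet_inter_preimage (hBm i) ((hcont i).mono (hBA i)) (hI l)
  have hex : ∀ i l, ∃ τ : Rn k → Rn k, (∃ C : ℝ≥0, LipschitzWith C τ) ∧
      ∀ v ∈ B i ∩ D.φ i ⁻¹' (D.φ l '' D.A l), τ v ∈ D.A l ∧ D.φ l (τ v) = D.φ i v :=
    fun i l => exists_trans (hbi i) (hbi l) (inter_subset_left.trans (hBA i)) fun v hv => hv.2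
  choose τ hτC hτ using hex
  choose C hC using hτC
  refine ⟨⟨B, τ, C, hBm, hBA, ?_, ?_, hV, hC, hτ⟩⟩
  · have key : ∀ i j, e i < e j → Disjoint (D.φ i '' B i) (D.φ j '' B j) := by
      intro i j hij
      rw [Set.disjoint_left]
      rintro x ⟨u, hu, rfl⟩ ⟨v, hv, hvu⟩
      refine hv.2 ?_
      exact mem_iUnion₂.2 ⟨i, hij, u, hBA i hu, hvu.symm⟩
    intro i j hij
    rcases lt_or_gt_of_ne (fun h => hij (he h)) with h | h
    · exact key i j h
    · exact (key j i h).symm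
  · intro l w hw
    have hne : ∃ n, ∃ i, e i = n ∧ D.φ l w ∈ D.φ i '' D.A i := ⟨e l, l, rfl, w, hw, rfl⟩
    obtain ⟨i, hi, u, hu, huw⟩ := Nat.find_spec hne
    refine ⟨i, u, ⟨hu, ?_⟩, huw⟩
    intro hcon
    obtain ⟨j, hj, hju⟩ := mem_iUnion₂.1 hcon
    rw [huw] at hju
    exact Nat.find_min hne (hi ▸ hj) ⟨j, rfl, hju⟩

namespace TD

variable {D : Param k E} (X : TD D)

/-- the part of the chart `i` which is also covered by the chart `l` -/
def V (i l : D.ι) : Set (Rn k) := X.B i ∩ D.φ i ⁻¹' (D.φ l '' D.A l)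

/-- the part of the chart `l` which is allotted to the chart `i` -/
def W (i l : D.ι) : Set (Rn k) := D.A l ∩ D.φ l ⁻¹' (D.φ i '' X.B i)

theorem meas_V (i l : D.ι) : MeasurableSet (X.V i l) := X.hV i l

theorem V_sub_B (i l : D.ι) : X.V i l ⊆ X.B i := inter_subset_left

theorem V_sub_A (i l : D.ι) : X.V i l ⊆ D.A i := inter_subset_left.trans (X.hBA i)

theorem image_V (hbi : ∀ i, BiLipOn (D.φ i) (D.A i)) (i l : D.ι) :
    X.τ i l '' X.V i l = X.W i l := by
  apply Subset.antisymm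
  · rintro _ ⟨v, hv, rfl⟩
    have h1 := X.hτ i l v hv
    exact ⟨h1.1, v, hv.1, h1.2.symm⟩
  · rintro w ⟨hw, v, hv, hvw⟩
    have h0 : v ∈ X.V i l := ⟨hv, w, hw, hvw.symm⟩
    have h1 := X.hτ i l v h0
    exact ⟨v, h0, biLip_injOn (hbi l) h1.1 hw (h1.2.trans hvw)⟩

theorem injOn_τ (hbi : ∀ i, BiLipOn (D.φ i) (D.A i)) (i l : D.ι) :
    InjOn (X.τ i l) (X.V i l) := by
  intro v hv v' hv' h
  refine biLip_injOn (hbi i) (X.V_sub_A i l hv) (X.V_sub_A i l hv') ?_
  rw [← (X.hτ i l v hv).2, ← (X.hτ i l v' hv').2, h]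

theorem iUnion_W (l : D.ι) : ⋃ i, X.W i l = D.A l := by
  apply Subset.antisymm
  · exact iUnion_subset fun i => inter_subset_left
  · intro w hw
    obtain ⟨i, hi⟩ := X.hcov l w hw
    exact mem_iUnion.2 ⟨i, hw, hi⟩

theorem disj_W (l : D.ι) : Pairwise (Function.onFun Disjoint fun i => X.W i l) := by
  intro i j hij
  rw [Function.onFun, Set.disjoint_left]
  rintro w ⟨_, h1⟩ ⟨_, h2⟩
  exact Set.disjoint_left.1 (X.hdisj hij) h1 h2

theorem meas_W (ha : S_area) (hbi : ∀ i, BiLipOn (D.φ i) (D.A i)) (i l : D.ι) :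
    MeasurableSet (X.W i l) := by
  rw [← X.image_V hbi]
  exact (ha k (X.τ i l) (X.V i l) 0 ⟨_, X.hτL i l⟩ (X.hV i l) (X.injOn_τ hbi i l)
    measurable_zero).1

/-- the contribution of the chart `l` to the multiplicity on the chart `i` -/
noncomputable def c (i l : D.ι) : Rn k → ℤ :=
  (X.V i l).indicator fun v =>
    D.θ l (X.τ i l v) * (if 0 < (fderiv ℝ (X.τ i l) v).det then 1 else -1)

theorem meas_c (hD : D.IsLip) (i l : D.ι) : Measurable (X.c i l) := by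
  refine Measurable.indicator ?_ (X.hV i l)
  refine ((hD.measθ l).comp (X.hτL i l).continuous.measurable).mul ?_
  exact Measurable.ite (measurableSet_lt measurable_const (measurable_det _)) measurable_const
    measurable_const

theorem enorm_c (i l : D.ι) (v : Rn k) (z : ℝ≥0∞) : ‖(X.c i l v : ℝ)‖ₑ * z =
    (X.V i l).indicator (fun v => ‖(D.θ l (X.τ i l v) : ℝ)‖ₑ * z) v := by
  by_cases hv : v ∈ X.V i l
  · rw [c, indicator_of_mem hv, indicator_of_mem hv]
    split_ifs with h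
    · rw [mul_one]
    · rw [mul_neg, mul_one, Int.cast_neg, enorm_neg]
  · rw [c, indicator_of_notMem hv, indicator_of_notMem hv]
    simp

theorem meas_enorm {α : Type} [MeasurableSpace α] {c : α → ℤ} (hc : Measurable c) :
    Measurable fun v => ‖(c v : ℝ)‖ₑ :=
  (measurable_from_top (f := fun n : ℤ => ‖(n : ℝ)‖ₑ)).comp hc

theorem cost_pair (hd : S_dens) (hn : S_null) (ha : S_area) (hD : D.IsLip)
    (hbi : ∀ i, BiLipOn (D.φ i) (D.A i)) {J : Seminorm ℝ (Rn k) → ℝ≥0∞} (hJ : VolFun k J)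
    (i l : D.ι) : ∫⁻ v in X.B i, ‖(X.c i l v : ℝ)‖ₑ * J (D.N i v) =
      ∫⁻ w in X.W i l, ‖(D.θ l w : ℝ)‖ₑ * J (D.N l w) := by
  have hg : Measurable fun w => ‖(D.θ l w : ℝ)‖ₑ * J (D.N l w) :=
    (meas_enorm (hD.measθ l)).mul (hJ.meas (D.N l) (hD.measN l))
  have h1 : ∀ v, ‖(X.c i l v : ℝ)‖ₑ * J (D.N i v) =
      (X.V i l).indicator (fun v => ‖(D.θ l (X.τ i l v) : ℝ)‖ₑ * J (D.N i v)) v := by
    intro v
    rw [X.enorm_c i l v]
    by_cases hv : v ∈ X.V i l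
    · rw [indicator_of_mem hv, indicator_of_mem hv]
    · rw [indicator_of_notMem hv, indicator_of_notMem hv]
  rw [lintegral_congr h1, lintegral_indicator (X.meas_V i l),
    Measure.restrict_restrict (X.meas_V i l), inter_eq_left.2 (X.V_sub_B i l), ← X.image_V hbi,
    (ha k (X.τ i l) (X.V i l) _ ⟨_, X.hτL i l⟩ (X.hV i l) (X.injOn_τ hbi i l) hg).2]
  refine lintegral_congr_ae ?_
  filter_upwards [trans_ae hd hn (hD.measA l) (X.hV i l) (X.V_sub_A i l) (hbi i) (hbi l)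
    (X.hτL i l) (X.hτ i l) (hD.md i) (hD.md l) (P := fun _ => True)
    (Eventually.of_forall fun _ => trivial)] with v hv
  obtain ⟨_, h2, _, _, h3, h4⟩ := hv
  rw [h3, hJ.comp _ _ h4 h2]
  rw [← mul_assoc, ← mul_assoc, mul_comm (‖(D.θ l (X.τ i l v) : ℝ)‖ₑ)]

theorem cost_sum (hd : S_dens) (hn : S_null) (ha : S_area) (hD : D.IsLip)
    (hbi : ∀ i, BiLipOn (D.φ i) (D.A i)) {J : Seminorm ℝ (Rn k) → ℝ≥0∞} (hJ : VolFun k J) :
    ∑' i, ∑' l, ∫⁻ v in X.B i, ‖(X.c i l v : ℝ)‖ₑ * J (D.N i v) = D.cost J := by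
  have := hD.countable
  rw [ENNReal.tsum_comm, Param.cost]
  refine tsum_congr fun l => ?_
  rw [← X.iUnion_W l, lintegral_iUnion (fun i => X.meas_W ha hbi i l) (X.disj_W l)]
  exact tsum_congr fun i => X.cost_pair hd hn ha hD hbi hJ i l

/-- the new parametrisation data -/
noncomputable def newD : Param k E := ⟨D.ι, X.B, D.φ, fun i v => ∑ᶠ l, X.c i l v, D.N⟩

theorem isLip (hD : D.IsLip) : X.newD.IsLip := by
  have := hD.countable
  refine ⟨hD.countable, X.hB, fun i => ?_, fun i => measurable_finsum fun l => X.meas_c hD i l,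
    hD.measN, fun i => ?_⟩
  · obtain ⟨K, hK⟩ := hD.lip i
    exact ⟨K, hK.mono (X.hBA i)⟩
  · have h1 := ae_restrict_of_ae_restrict_of_subset (X.hBA i) (hD.md i)
    filter_upwards [h1] with u hu
    exact hu.mono (nhdsWithin_mono u (X.hBA i))

theorem biLip (hbi : ∀ i, BiLipOn (D.φ i) (D.A i)) (i : D.ι) : BiLipOn (D.φ i) (X.B i) := by
  obtain ⟨K, hK⟩ := hbi i
  exact ⟨K, fun u hu v hv => hK u (X.hBA i hu) v (X.hBA i hv)⟩

theorem sum_lintegral (hD : D.IsLip) {J : Seminorm ℝ (Rn k) → ℝ≥0∞} (hJ : VolFun k J)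
    (i : D.ι) : ∫⁻ v in X.B i, (∑' l, ‖(X.c i l v : ℝ)‖ₑ) * J (D.N i v) =
      ∑' l, ∫⁻ v in X.B i, ‖(X.c i l v : ℝ)‖ₑ * J (D.N i v) := by
  have := hD.countable
  have h := lintegral_tsum (μ := volume.restrict (X.B i))
    (f := fun l v => ‖(X.c i l v : ℝ)‖ₑ * J (D.N i v)) fun l =>
    ((meas_enorm (X.meas_c hD i l)).mul (hJ.meas (D.N i) (hD.measN i))).aemeasurable
  rw [← h]
  refine lintegral_congr fun v => ?_
  rw [ENNReal.tsum_mul_right]

theorem cost_le (hd : S_dens) (hn : S_null) (ha : S_area) (hD : D.IsLip)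
    (hbi : ∀ i, BiLipOn (D.φ i) (D.A i)) {J : Seminorm ℝ (Rn k) → ℝ≥0∞} (hJ : VolFun k J) :
    X.newD.cost J ≤ D.cost J := by
  rw [← X.cost_sum hd hn ha hD hbi hJ, Param.cost]
  refine ENNReal.tsum_le_tsum fun i => ?_
  rw [← X.sum_lintegral hD hJ i]
  refine lintegral_mono fun v => ?_
  exact mul_le_mul_left (enorm_finsum_le fun l => X.c i l v) _

end TD

end Pool.Agent.W63.LVFdisj
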