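import Pool.Agent.W63.LVF.DisjC

/-!
Disjoint bi-Lipschitz parametrisations, part D: the represented functional.
-/

set_option autoImplicit false
set_option linter.unusedSectionVars false

open MeasureTheory Set Filter Topology Asymptotics
open scoped ENNReal NNReal
open Pool.Agent.W674.LVR Pool.Agent.W674.LVF

namespace Pool.Agent.W63.LVFdisj

variable {k : ℕ} {E : Type} [MetricSpace E]

theorem lip_comp {D : Param k E} (hD : D.IsLip) {π : Fin k → E → ℝ} (hπ : ∀ j, Lip (π j))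
    (l : D.ι) : ∀ j, ∃ K : ℝ≥0, LipschitzOnWith K (π j ∘ D.φ l) (D.A l) := by
  intro j
  obtain ⟨K, hK⟩ := hπ j
  obtain ⟨K', hK'⟩ := hD.lip l
  exact ⟨K * K', hK.comp_lipschitzOnWith hK'⟩

theorem contOn_comp {D : Param k E} (hD : D.IsLip) {f : E → ℝ} (hf : BLip f) (l : D.ι) :
    ContinuousOn (fun w => f (D.φ l w)) (D.A l) := by
  obtain ⟨K, hK⟩ := hf.1
  obtain ⟨K', hK'⟩ := hD.lip l
  exact hK.continuous.comp_continuousOn hK'.continuousOn

theorem aesm (hd : S_dens) {D : Param k E} (hD : D.IsLip) {f : E → ℝ} {π : Fin k → E → ℝ}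
    (hf : BLip f) (hπ : ∀ j, Lip (π j)) (l : D.ι) {θ : Rn k → ℤ} (hθ : Measurable θ) :
    AEStronglyMeasurable (fun w => (θ w : ℝ) * f (D.φ l w) *
      jacW (D.A l) (fun j => π j ∘ D.φ l) w) (volume.restrict (D.A l)) := by
  have h1 : Measurable fun w => (θ w : ℝ) :=
    (measurable_from_top (f := fun n : ℤ => (n : ℝ))).comp hθ
  exact (h1.aestronglyMeasurable.mul
    ((contOn_comp hD hf l).aestronglyMeasurable (hD.measA l))).mul
    (jacW_aemeasurable hd (hD.measA l) (lip_comp hD hπ l)).aestronglyMeasurable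

theorem bound (hd : S_dens) {D : Param k E} (hD : D.IsLip) (hJ : VolFun k (busemann (k := k)))
    {f : E → ℝ} {π : Fin k → E → ℝ} (hf : BLip f) (hπ : ∀ j, Lip (π j)) :
    ∃ C : ℝ≥0∞, C ≠ ⊤ ∧ ∀ l, ∀ᵐ u ∂(volume.restrict (D.A l)),
      ‖f (D.φ l u) * jacW (D.A l) (fun j => π j ∘ D.φ l) u‖ₑ ≤ C * busemann (D.N l u) := by
  obtain ⟨Cf, hCf⟩ := hf.2
  choose K hK using hπ
  set L : ℝ≥0 := 1 + ∑ j, K j with hL
  have hLK : ∀ j, LipschitzWith L (π j) := fun j => (hK j).weaken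
    ((Finset.single_le_sum (f := K) (fun _ _ => zero_le) (Finset.mem_univ j)).trans
      (le_add_of_nonneg_left zero_le))
  have hL0 : 0 < L := lt_of_lt_of_le one_pos (le_add_of_nonneg_right zero_le)
  have hJ0 : busemann (normSeminorm ℝ (Rn k)) ≠ 0 := (hJ.pos _ isNrm_norm).ne'
  have hJt : busemann (normSeminorm ℝ (Rn k)) ≠ ⊤ := (hJ.lt_top _).ne
  refine ⟨ENNReal.ofReal Cf * (ENNReal.ofReal ((L : ℝ) ^ k) / busemann (normSeminorm ℝ (Rn k))),
    ENNReal.mul_ne_top ENNReal.ofReal_ne_top (ENNReal.div_ne_top ENNReal.ofReal_ne_top hJ0),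
    fun l => ?_⟩
  have hq := lip_comp hD (fun j => ⟨K j, hK j⟩ : ∀ j, Lip (π j)) l
  choose M hM using hq
  filter_upwards [hd k (D.A l) (hD.measA l), hD.md l,
    ae_all_iff.2 fun j => (hM j).ae_differentiableWithinAt (hD.measA l)] with u h1 h2 h3
  have h4 := jac_bound hJ (fun j => fderivWithin ℝ (π j ∘ D.φ l) (D.A l) u) (D.N l u) L hL0
    (fun j w => deriv_le h1 h2 (hLK j) (h3 j).hasFDerivWithinAt w)
  rw [enorm_mul, mul_assoc]
  refine mul_le_mul' ?_ ?_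
  · rw [← ofReal_norm, Real.norm_eq_abs]
    exact ENNReal.ofReal_le_ofReal (hCf _)
  · rw [← ofReal_norm, Real.norm_eq_abs, ENNReal.mul_comm_div]
    rw [← mul_div_assoc, ENNReal.le_div_iff_mul_le (Or.inl hJ0) (Or.inl hJt)]
    exact h4

theorem lintegral_bound (hd : S_dens) {D : Param k E} (hD : D.IsLip)
    (hJ : VolFun k (busemann (k := k)))
    {f : E → ℝ} {π : Fin k → E → ℝ} (hf : BLip f) (hπ : ∀ j, Lip (π j)) :
    ∃ C : ℝ≥0∞, C ≠ ⊤ ∧ ∀ (l : D.ι) (θ : Rn k → ℤ), ∫⁻ w in D.A l, ‖(θ w : ℝ) * f (D.φ l w) *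
      jacW (D.A l) (fun j => π j ∘ D.φ l) w‖ₑ ≤
        C * ∫⁻ w in D.A l, ‖(θ w : ℝ)‖ₑ * busemann (D.N l w) := by
  obtain ⟨C, hC, h⟩ := bound hd hD hJ hf hπ
  refine ⟨C, hC, fun l θ => ?_⟩
  rw [← lintegral_const_mul' _ _ hC]
  refine lintegral_mono_ae ?_
  filter_upwards [h l] with u hu
  rw [mul_assoc, enorm_mul, mul_left_comm]
  exact mul_le_mul_right hu _

namespace TD

variable {D : Param k E} (X : TD D)

theorem pair_integral (hd : S_dens) (hn : S_null) (ha : S_area) (hD : D.IsLip)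
    (hbi : ∀ i, BiLipOn (D.φ i) (D.A i)) {f : E → ℝ} {π : Fin k → E → ℝ}
    (hf : BLip f) (hπ : ∀ j, Lip (π j)) (i l : D.ι) :
    ∫ v in X.B i, (X.c i l v : ℝ) * f (D.φ i v) * jacW (X.B i) (fun j => π j ∘ D.φ i) v =
      ∫ w in X.W i l, (D.θ l w : ℝ) * f (D.φ l w) *
        jacW (D.A l) (fun j => π j ∘ D.φ l) w := by
  have hWA : X.W i l ⊆ D.A l := inter_subset_left
  have hm : AEStronglyMeasurable (fun w => (D.θ l w : ℝ) * f (D.φ l w) *
      jacW (D.A l) (fun j => π j ∘ D.φ l) w) (volume.restrict (X.τ i l '' X.V i l)) := by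
    rw [X.image_V hbi]
    exact (aesm hd hD hf hπ l (hD.measθ l)).mono_measure (Measure.restrict_mono_set _ hWA)
  rw [← X.image_V hbi, integral_image ha (X.hτL i l) (X.meas_V i l) (X.injOn_τ hbi i l) hm]
  set g : Rn k → ℝ := fun v => ((D.θ l (X.τ i l v) *
    (if 0 < (fderiv ℝ (X.τ i l) v).det then 1 else -1) : ℤ) : ℝ) * f (D.φ i v) *
      jacW (X.B i) (fun j => π j ∘ D.φ i) v with hg
  have h1 : ∀ v, (X.c i l v : ℝ) * f (D.φ i v) * jacW (X.B i) (fun j => π j ∘ D.φ i) v =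
      (X.V i l).indicator g v := by
    intro v
    by_cases hv : v ∈ X.V i l
    · rw [c, indicator_of_mem hv, indicator_of_mem hv]
    · rw [c, indicator_of_notMem hv, indicator_of_notMem hv]
      simp
  rw [integral_congr_ae (Eventually.of_forall h1), integral_indicator (X.meas_V i l),
    Measure.restrict_restrict (X.meas_V i l), inter_eq_left.2 (X.V_sub_B i l)]
  refine integral_congr_ae ?_
  have hqi := lip_comp hD hπ i
  have hql := lip_comp hD hπ l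
  have hsub := ae_restrict_of_ae_restrict_of_subset (X.V_sub_B i l)
    (jacW_subset hd (hD.measA i) (X.hB i) (X.hBA i) hqi)
  choose Ki hKi using hqi
  choose Kl hKl using hql
  filter_upwards [trans_ae hd hn (hD.measA l) (X.hV i l) (X.V_sub_A i l) (hbi i) (hbi l)
    (X.hτL i l) (X.hτ i l) (hD.md i) (hD.md l)
    (P := fun u => ∀ j, DifferentiableWithinAt ℝ (π j ∘ D.φ l) (D.A l) u)
    (ae_all_iff.2 fun j => (hKl j).ae_differentiableWithinAt (hD.measA l)),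
    ae_restrict_of_ae_restrict_of_subset (X.V_sub_A i l)
      (ae_all_iff.2 fun j => (hKi j).ae_differentiableWithinAt (hD.measA i)), hsub,
    ae_restrict_mem (X.meas_V i l)] with v h2 h3 h4 h5
  obtain ⟨h6, h7, h8, h9, -, -⟩ := h2
  have h10 := X.hτ i l v h5
  have h11 : jacW (D.A i) (fun j => π j ∘ D.φ i) v =
      jacW (D.A l) (fun j => π j ∘ D.φ l) (X.τ i l v) * (fderiv ℝ (X.τ i l) v).det :=
    jacW_comp (X.V_sub_A i l) (fun w hw => ⟨(X.hτ i l w hw).1, fun j => by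
      simp only [Function.comp, (X.hτ i l w hw).2]⟩) h5 h6 h8 h3 h9
  simp only [hg]
  rw [h4, h11, h10.2]
  push_cast
  by_cases hpos : 0 < (fderiv ℝ (X.τ i l) v).det
  · rw [if_pos hpos, abs_of_pos hpos]
    ring
  · rw [if_neg hpos, abs_of_nonpos (not_lt.1 hpos)]
    ring

theorem isNrm_ae (hd : S_dens) (hD : D.IsLip) (hbi : ∀ i, BiLipOn (D.φ i) (D.A i)) (i : D.ι) :
    ∀ᵐ u ∂(volume.restrict (D.A i)), IsNrm (D.N i u) := by
  obtain ⟨K, hK⟩ := hbi i
  filter_upwards [hd k (D.A i) (hD.measA i), hD.md i, ae_restrict_mem (hD.measA i)] with u h1 h2 h3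
  exact isNrm_of_low (fun w hw => (hK w hw u h3).2) h2 h1

theorem finite_ae (hd : S_dens) (hn : S_null) (ha : S_area) (hD : D.IsLip)
    (hbi : ∀ i, BiLipOn (D.φ i) (D.A i)) (hJ : VolFun k (busemann (k := k)))
    (hc : D.cost busemann < ⊤) (i : D.ι) :
    ∀ᵐ v ∂(volume.restrict (X.B i)), ∑' l, ‖(X.c i l v : ℝ)‖ₑ < ⊤ := by
  have := hD.countable
  have h1 := X.cost_sum hd hn ha hD hbi hJ
  have h2 : ∫⁻ v in X.B i, (∑' l, ‖(X.c i l v : ℝ)‖ₑ) * busemann (D.N i v) < ⊤ := by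
    rw [X.sum_lintegral hD hJ i]
    refine lt_of_le_of_lt (ENNReal.le_tsum i) (h1.trans_lt hc)
  have hm : Measurable fun v => (∑' l, ‖(X.c i l v : ℝ)‖ₑ) * busemann (D.N i v) :=
    (Measurable.tsum fun l => meas_enorm (X.meas_c hD i l)).mul
      (hJ.meas (D.N i) (hD.measN i))
  filter_upwards [ae_lt_top hm h2.ne, ae_restrict_of_ae_restrict_of_subset (X.hBA i)
    (isNrm_ae hd hD hbi i)] with v h3 h4
  by_contra hcon
  rw [not_lt, top_le_iff] at hcon
  rw [hcon, ENNReal.top_mul (hJ.pos _ h4).ne'] at h3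
  exact lt_irrefl _ h3

theorem represents (hd : S_dens) (hn : S_null) (ha : S_area) (hD : D.IsLip)
    (hbi : ∀ i, BiLipOn (D.φ i) (D.A i)) (hJ : VolFun k (busemann (k := k)))
    (hc : D.cost busemann < ⊤) {T : Fnl k E} (hT : D.Represents T) : X.newD.Represents T := by
  have := hD.countable
  intro f π hf hπ
  have hD' := X.isLip hD
  -- absolute summability
  set a : D.ι × D.ι → ℝ := fun p => ∫ v in X.B p.1, (X.c p.1 p.2 v : ℝ) * f (D.φ p.1 v) *
    jacW (X.B p.1) (fun j => π j ∘ D.φ p.1) v with ha'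
  obtain ⟨C, hC, hCb⟩ := lintegral_bound hd hD' hJ hf hπ
  have hb : ∀ p : D.ι × D.ι, ∫⁻ v in X.B p.1, ‖(X.c p.1 p.2 v : ℝ) * f (D.φ p.1 v) *
      jacW (X.B p.1) (fun j => π j ∘ D.φ p.1) v‖ₑ ≤
      C * ∫⁻ v in X.B p.1, ‖(X.c p.1 p.2 v : ℝ)‖ₑ * busemann (D.N p.1 v) := fun p =>
    hCb p.1 (X.c p.1 p.2)
  have hsum : ∑' p : D.ι × D.ι, ∫⁻ v in X.B p.1, ‖(X.c p.1 p.2 v : ℝ) * f (D.φ p.1 v) *
      jacW (X.B p.1) (fun j => π j ∘ D.φ p.1) v‖ₑ < ⊤ := by
    refine (ENNReal.tsum_le_tsum hb).trans_lt ?_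
    rw [ENNReal.tsum_mul_left, ENNReal.tsum_prod', X.cost_sum hd hn ha hD hbi hJ]
    exact ENNReal.mul_lt_top hC.lt_top hc
  have hmeas : ∀ i l, AEStronglyMeasurable (fun v => (X.c i l v : ℝ) * f (D.φ i v) *
      jacW (X.B i) (fun j => π j ∘ D.φ i) v) (volume.restrict (X.B i)) := fun i l =>
    aesm hd hD' hf hπ i (X.meas_c hD i l)
  have hint : ∀ i l, Integrable (fun v => (X.c i l v : ℝ) * f (D.φ i v) *
      jacW (X.B i) (fun j => π j ∘ D.φ i) v) (volume.restrict (X.B i)) := fun i l =>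
    ⟨hmeas i l, (ENNReal.le_tsum (i, l)).trans_lt hsum⟩
  have hnorm : ∀ p : D.ι × D.ι, ∫ v in X.B p.1, ‖(X.c p.1 p.2 v : ℝ) * f (D.φ p.1 v) *
      jacW (X.B p.1) (fun j => π j ∘ D.φ p.1) v‖ =
      (∫⁻ v in X.B p.1, ‖(X.c p.1 p.2 v : ℝ) * f (D.φ p.1 v) *
      jacW (X.B p.1) (fun j => π j ∘ D.φ p.1) v‖ₑ).toReal := fun p =>
    integral_norm_eq_lintegral_enorm (hmeas p.1 p.2)
  have hsumn : Summable fun p : D.ι × D.ι => ∫ v in X.B p.1, ‖(X.c p.1 p.2 v : ℝ) *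
      f (D.φ p.1 v) * jacW (X.B p.1) (fun j => π j ∘ D.φ p.1) v‖ := by
    simp only [hnorm]
    exact ENNReal.summable_toReal hsum.ne
  have hsa : Summable a := by
    refine Summable.of_norm_bounded hsumn fun p => ?_
    exact norm_integral_le_integral_norm _
  -- the sum over the second index
  have h1 : ∀ i, HasSum (fun l => a (i, l)) (∫ v in X.B i, ((∑ᶠ l, X.c i l v : ℤ) : ℝ) *
      f (D.φ i v) * jacW (X.B i) (fun j => π j ∘ D.φ i) v) := by
    intro i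
    have h2 := hasSum_integral_of_summable_integral_norm (hint i)
      (hsumn.comp_injective (i := fun l => (i, l)) (Prod.mk_right_injective i))
    have h3 : ∫ v in X.B i, ∑' l, (X.c i l v : ℝ) * f (D.φ i v) *
        jacW (X.B i) (fun j => π j ∘ D.φ i) v = ∫ v in X.B i, ((∑ᶠ l, X.c i l v : ℤ) : ℝ) *
      f (D.φ i v) * jacW (X.B i) (fun j => π j ∘ D.φ i) v := by
      refine integral_congr_ae ?_
      filter_upwards [X.finite_ae hd hn ha hD hbi hJ hc i] with v hv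
      exact (((tsum_of_lt_top (fun l => X.c i l v) hv).mul_right _).mul_right _).tsum_eq
    rw [h3] at h2
    exact h2
  -- the sum over the first index
  obtain ⟨C', hC', hCb'⟩ := lintegral_bound hd hD hJ hf hπ
  have h4 : ∀ l, HasSum (fun i => a (i, l)) (∫ w in D.A l, (D.θ l w : ℝ) * f (D.φ l w) *
      jacW (D.A l) (fun j => π j ∘ D.φ l) w) := by
    intro l
    have hi : IntegrableOn (fun w => (D.θ l w : ℝ) * f (D.φ l w) *
      jacW (D.A l) (fun j => π j ∘ D.φ l) w) (⋃ i, X.W i l) := by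
      rw [X.iUnion_W]
      refine ⟨aesm hd hD hf hπ l (hD.measθ l), (hCb' l (D.θ l)).trans_lt ?_⟩
      exact ENNReal.mul_lt_top hC'.lt_top ((ENNReal.le_tsum l).trans_lt hc)
    have h5 := hasSum_integral_iUnion (fun i => X.meas_W ha hbi i l) (X.disj_W l) hi
    rw [X.iUnion_W] at h5
    have h9 : (fun i => a (i, l)) = fun i => ∫ w in X.W i l, (D.θ l w : ℝ) * f (D.φ l w) *
        jacW (D.A l) (fun j => π j ∘ D.φ l) w :=
      funext fun i => X.pair_integral hd hn ha hD hbi hf hπ i l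
    rw [h9]
    exact h5
  have h6 : HasSum (fun i => ∫ v in X.B i, ((∑ᶠ l, X.c i l v : ℤ) : ℝ) *
      f (D.φ i v) * jacW (X.B i) (fun j => π j ∘ D.φ i) v) (∑' p, a p) :=
    hsa.hasSum.prod_fiberwise h1
  have h7 : HasSum (fun l => ∫ w in D.A l, (D.θ l w : ℝ) * f (D.φ l w) *
      jacW (D.A l) (fun j => π j ∘ D.φ l) w) (∑' p, a p) := by
    have h8 : HasSum (fun p : D.ι × D.ι => a p.swap) (∑' p, a p) :=
      (Equiv.prodComm D.ι D.ι).hasSum_iff.2 hsa.hasSum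
    exact h8.prod_fiberwise h4
  rw [h7.unique (hT f π hf hπ)] at h6
  exact h6

end TD

/-- bi-Lipschitz parametrisations can be made disjoint -/
theorem main (hd : S_dens) (hn : S_null) (ha : S_area) : S_disj := by
  intro k E _ _ _ J D T hJ hB hD hbi hc hT
  obtain ⟨X⟩ := exists_TD D hD hbi
  exact ⟨X.newD, ⟨X.isLip hD, X.biLip hbi, X.hdisj, X.represents hd hn ha hD hbi hB hc hT,
    (X.cost_le hd hn ha hD hbi hB).trans_lt hc⟩, X.cost_le hd hn ha hD hbi hJ⟩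

end Pool.Agent.W63.LVFdisj
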