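import Pool.Agent.W674.LVF.Stm2

/-!
Kirchheim's theorem from the directional statement (part S_kir of helper674's project on
MP_2c180d_gt).
-/

set_option autoImplicit false

open MeasureTheory Set Filter Topology Asymptotics
open scoped ENNReal NNReal
open Pool.Agent.W674.LVR Pool.Agent.W674.LVF

namespace Pool.Agent.W63.LVFkir

variable {k : ℕ}

theorem fderiv_le {F : Rn k → ℝ} {K : ℝ≥0} (hF : LipschitzWith K F) (u w : Rn k) :
    |fderiv ℝ F u w| ≤ K * ‖w‖ := by
  have h := (fderiv ℝ F u).le_opNorm w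
  rw [Real.norm_eq_abs] at h
  exact h.trans (mul_le_mul_of_nonneg_right (norm_fderiv_le_of_lipschitz ℝ hF) (norm_nonneg _))

/-- the supremum of the absolute values of the derivatives -/
noncomputable def supD (F : ℕ → Rn k → ℝ) (u w : Rn k) : ℝ := ⨆ j, |fderiv ℝ (F j) u w|

variable {F : ℕ → Rn k → ℝ} {K : ℝ≥0}

theorem bdd (hF : ∀ j, LipschitzWith K (F j)) (u w : Rn k) :
    BddAbove (Set.range fun j => |fderiv ℝ (F j) u w|) :=
  ⟨K * ‖w‖, by
    rintro _ ⟨j, rfl⟩
    exact fderiv_le (hF j) u w⟩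

theorem supD_add (hF : ∀ j, LipschitzWith K (F j)) (u x y : Rn k) :
    supD F u (x + y) ≤ supD F u x + supD F u y := by
  refine ciSup_le fun j => ?_
  rw [map_add]
  exact (abs_add_le _ _).trans (add_le_add (le_ciSup (bdd hF u x) j) (le_ciSup (bdd hF u y) j))

theorem supD_smul (u : Rn k) (a : ℝ) (x : Rn k) : supD F u (a • x) = ‖a‖ * supD F u x := by
  unfold supD
  rw [Real.mul_iSup_of_nonneg (norm_nonneg a)]
  refine iSup_congr fun j => ?_
  rw [map_smul, smul_eq_mul, abs_mul, Real.norm_eq_abs]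

/-- the seminorm at the point `u` -/
noncomputable def semi (hF : ∀ j, LipschitzWith K (F j)) (u : Rn k) : Seminorm ℝ (Rn k) :=
  Seminorm.of (supD F u) (supD_add hF u) (supD_smul u)

theorem semi_apply (hF : ∀ j, LipschitzWith K (F j)) (u w : Rn k) :
    semi hF u w = supD F u w := rfl

theorem semi_le (hF : ∀ j, LipschitzWith K (F j)) (u w : Rn k) : semi hF u w ≤ K * ‖w‖ :=
  ciSup_le fun j => fderiv_le (hF j) u w

theorem le_semi (hF : ∀ j, LipschitzWith K (F j)) (u w : Rn k) (j : ℕ) :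
    |fderiv ℝ (F j) u w| ≤ semi hF u w := le_ciSup (bdd hF u w) j

theorem exists_lt_semi (hF : ∀ j, LipschitzWith K (F j)) (u w : Rn k) {ε : ℝ} (hε : 0 < ε) :
    ∃ j, semi hF u w ≤ |fderiv ℝ (F j) u w| + ε := by
  obtain ⟨j, hj⟩ := exists_lt_of_lt_ciSup (show supD F u w - ε < supD F u w by linarith)
  refine ⟨j, ?_⟩
  rw [semi_apply]
  linarith

theorem semi_meas (hF : ∀ j, LipschitzWith K (F j)) (w : Rn k) :
    Measurable fun u => semi hF u w := by
  change Measurable fun u => ⨆ j, |fderiv ℝ (F j) u w|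
  exact Measurable.iSup fun j => (measurable_fderiv_apply_const ℝ (F j) w).abs

/-- the pointwise statement -/
theorem pointwise {E : Type} [MetricSpace E] {φ : Rn k → E} {A : Set (Rn k)} {u : Rn k}
    (hF : ∀ j, LipschitzWith K (F j)) (hu : u ∈ A)
    (h1 : ∀ w ∈ A, ∀ j, |F j w - F j u| ≤ dist (φ w) (φ u))
    (h2 : ∀ w ∈ A, ∀ c, (∀ j, |F j w - F j u| ≤ c) → dist (φ w) (φ u) ≤ c)
    (hd : ∀ j, DifferentiableAt ℝ (F j) u) (v : ℕ → Rn k) (hv : DenseRange v)
    (hk : ∀ i, ∀ ε : ℝ, 0 < ε → ∀ᶠ t in 𝓝[>] (0 : ℝ), ∀ j,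
      |F j (u + t • v i) - F j u| ≤ (semi hF u (v i) + ε) * t) :
    IsMD φ A u (semi hF u) := by
  have key : ∀ ε : ℝ, 0 < ε → ∀ᶠ w in 𝓝[A] u,
      |dist (φ w) (φ u) - semi hF u (w - u)| ≤ (2 + 2 * K) * ε * ‖w - u‖ := by
    intro ε hε
    -- a finite net of the sphere
    obtain ⟨s, hs⟩ := (isCompact_sphere (0 : Rn k) 1).elim_finite_subcover
      (fun i : ℕ => Metric.ball (v i) ε) (fun i => Metric.isOpen_ball) (by
        intro h _
        obtain ⟨i, hi⟩ := hv.exists_dist_lt h hε
        exact mem_iUnion.2 ⟨i, hi⟩)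
    choose j hj using fun i => exists_lt_semi hF u (v i) hε
    have e1 : ∀ᶠ t in 𝓝[>] (0 : ℝ), ∀ i ∈ s, ∀ j,
        |F j (u + t • v i) - F j u| ≤ (semi hF u (v i) + ε) * t :=
      (Finset.eventually_all s).2 fun i _ => hk i ε hε
    have e2 : ∀ᶠ w in 𝓝[A] u, ∀ i ∈ s,
        |F (j i) w - F (j i) u - fderiv ℝ (F (j i)) u (w - u)| ≤ ε * ‖w - u‖ := by
      refine (Finset.eventually_all s).2 fun i _ => ?_
      have := ((hd (j i)).hasFDerivAt.isLittleO.bound hε)
      exact this.filter_mono nhdsWithin_le_nhds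
    have e3 : ∀ᶠ w in 𝓝[A] u, w ≠ u → ∀ i ∈ s, ∀ j,
        |F j (u + ‖w - u‖ • v i) - F j u| ≤ (semi hF u (v i) + ε) * ‖w - u‖ := by
      have h3 : Tendsto (fun w => ‖w - u‖) (𝓝[≠] u) (𝓝[>] (0 : ℝ)) :=
        tendsto_norm_sub_self_nhdsNE u
      have h4 := h3.eventually e1
      rw [eventually_nhdsWithin_iff] at h4
      filter_upwards [mem_nhdsWithin_of_mem_nhds h4] with w hw hwu
      exact hw hwu
    filter_upwards [e2, e3, self_mem_nhdsWithin] with w h4 h5 hwA
    by_cases hwu : w = u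
    · subst hwu
      simp
    set t := ‖w - u‖ with ht
    have htpos : 0 < t := norm_pos_iff.2 (sub_ne_zero.2 hwu)
    set h := t⁻¹ • (w - u) with hh
    have hth : t • h = w - u := by
      rw [hh, smul_smul, mul_inv_cancel₀ htpos.ne', one_smul]
    have hnorm : ‖h‖ = 1 := by
      rw [hh, norm_smul, norm_inv, Real.norm_of_nonneg htpos.le, ← ht, inv_mul_cancel₀ htpos.ne']
    obtain ⟨i, hi, hib⟩ := mem_iUnion₂.1 (hs (mem_sphere_zero_iff_norm.2 hnorm))
    have hdist : ‖h - v i‖ ≤ ε := by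
      rw [← dist_eq_norm]
      exact (Metric.mem_ball.1 hib).le
    have hdist' : ‖v i - h‖ ≤ ε := by rwa [norm_sub_rev]
    have hKe : K * ‖h - v i‖ ≤ K * ε := mul_le_mul_of_nonneg_left hdist K.coe_nonneg
    have hKe' : K * ‖v i - h‖ ≤ K * ε := mul_le_mul_of_nonneg_left hdist' K.coe_nonneg
    have hN : semi hF u (w - u) = t * semi hF u h := by
      rw [← hth, map_smul_eq_mul, Real.norm_of_nonneg htpos.le]
    have hn1 : semi hF u (v i) ≤ semi hF u h + K * ε := by
      have h6 := map_add_le_add (semi hF u) h (v i - h)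
      rw [add_sub_cancel] at h6
      linarith [semi_le hF u (v i - h)]
    have hn2 : semi hF u h ≤ semi hF u (v i) + K * ε := by
      have h6 := map_add_le_add (semi hF u) (v i) (h - v i)
      rw [add_sub_cancel] at h6
      linarith [semi_le hF u (h - v i)]
    have hup : dist (φ w) (φ u) ≤ semi hF u (w - u) + (1 + 2 * K) * ε * t := by
      refine h2 w hwA _ fun l => ?_
      have h6 := h5 hwu i hi l
      have h7 : |F l w - F l (u + t • v i)| ≤ K * ε * t := by
        have h8 := (hF l).dist_le_mul w (u + t • v i)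
        rw [Real.dist_eq, dist_eq_norm] at h8
        have h9 : w - (u + t • v i) = t • (h - v i) := by
          rw [smul_sub, hth]
          abel
        rw [h9, norm_smul, Real.norm_of_nonneg htpos.le] at h8
        calc _ ≤ _ := h8
          _ = K * ‖h - v i‖ * t := by ring
          _ ≤ _ := mul_le_mul_of_nonneg_right hKe htpos.le
      have h8 : |F l w - F l u| ≤ |F l w - F l (u + t • v i)| + |F l (u + t • v i) - F l u| := by
        have := abs_add_le (F l w - F l (u + t • v i)) (F l (u + t • v i) - F l u)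
        rwa [sub_add_sub_cancel] at this
      have h9 : (semi hF u (v i) + ε) * t ≤ (semi hF u h + K * ε + ε) * t :=
        mul_le_mul_of_nonneg_right (by linarith) htpos.le
      rw [hN]
      nlinarith
    have hlow : semi hF u (w - u) ≤ dist (φ w) (φ u) + (2 + 2 * K) * ε * t := by
      have h6 := h1 w hwA (j i)
      have h7 := h4 i hi
      have h8 : |fderiv ℝ (F (j i)) u (w - u)| ≤ |F (j i) w - F (j i) u| + ε * t := by
        have h9 := abs_sub_abs_le_abs_sub (fderiv ℝ (F (j i)) u (w - u)) (F (j i) w - F (j i) u)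
        rw [abs_sub_comm (fderiv ℝ (F (j i)) u (w - u))] at h9
        linarith
      have h9 : |fderiv ℝ (F (j i)) u (w - u)| = t * |fderiv ℝ (F (j i)) u h| := by
        rw [← hth, map_smul, smul_eq_mul, abs_mul, abs_of_pos htpos]
      have h10 : |fderiv ℝ (F (j i)) u (v i)| ≤ |fderiv ℝ (F (j i)) u h| + K * ε := by
        have h11 := abs_add_le (fderiv ℝ (F (j i)) u h) (fderiv ℝ (F (j i)) u (v i - h))
        rw [← map_add, add_sub_cancel] at h11
        linarith [fderiv_le (hF (j i)) u (v i - h)]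
      have h11 : semi hF u h ≤ |fderiv ℝ (F (j i)) u h| + (1 + 2 * K) * ε := by
        have := hj i
        linarith
      have h12 := mul_le_mul_of_nonneg_left h11 htpos.le
      rw [hN]
      nlinarith
    rw [abs_le]
    have hKt : 0 ≤ ε * t := by positivity
    constructor <;> nlinarith
  rw [IsMD, isLittleO_iff]
  intro c hc
  have hK2 : (0 : ℝ) < 2 + 2 * K := by positivity
  filter_upwards [key (c / (2 + 2 * K)) (by positivity)] with w hw
  rw [mul_div_cancel₀ _ hK2.ne'] at hw
  exact hw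

theorem main (hkd : S_kdir) : S_kir := by
  intro k E _ φ A hA hφ
  obtain ⟨K, hK⟩ := hφ
  rcases A.eq_empty_or_nonempty with rfl | hne
  · exact ⟨fun _ => 0, fun w => measurable_const, by simp⟩
  have : Nonempty A := hne.to_subtype
  set a := TopologicalSpace.denseSeq A with ha
  have had : DenseRange a := TopologicalSpace.denseRange_denseSeq A
  have hlip : ∀ j, LipschitzOnWith K (fun u => dist (φ u) (φ (a j))) A := by
    intro j
    refine LipschitzOnWith.of_dist_le_mul fun u hu w hw => ?_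
    rw [Real.dist_eq]
    exact (abs_dist_sub_le _ _ _).trans (hK.dist_le_mul u hu w hw)
  choose F hF hFe using fun j => (hlip j).extend_real
  set v := TopologicalSpace.denseSeq (Rn k) with hv
  have hvd : DenseRange v := TopologicalSpace.denseRange_denseSeq (Rn k)
  refine ⟨semi hF, semi_meas hF, ?_⟩
  have h3 : ∀ᵐ u, ∀ j, DifferentiableAt ℝ (F j) u :=
    ae_all_iff.2 fun j => (hF j).ae_differentiableAt
  have h4 : ∀ᵐ u, ∀ i, ∀ ε : ℝ, 0 < ε → ∀ᶠ t in 𝓝[>] (0 : ℝ), ∀ j,
      |F j (u + t • v i) - F j u| ≤ ((⨆ l, |lineDeriv ℝ (F l) u (v i)|) + ε) * t :=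
    ae_all_iff.2 fun i => hkd k F K (v i) hF
  filter_upwards [ae_restrict_of_ae h3, ae_restrict_of_ae h4, ae_restrict_mem hA] with u h5 h6 hu
  refine pointwise hF hu ?_ ?_ h5 v hvd ?_
  · intro w hw j
    rw [← hFe j hw, ← hFe j hu]
    exact abs_dist_sub_le _ _ _
  · intro w hw c hc
    refine le_of_forall_pos_le_add fun ε hε => ?_
    -- a point of the sequence with image near `φ u`
    have h7 : ContinuousWithinAt φ A u := hK.continuousOn u hu
    rw [Metric.continuousWithinAt_iff] at h7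
    obtain ⟨δ, hδ, h8⟩ := h7 (ε / 2) (by positivity)
    obtain ⟨j, hj⟩ := had.exists_dist_lt ⟨u, hu⟩ hδ
    have h9 : dist (φ (a j)) (φ u) < ε / 2 := h8 (a j).2 (by
      rw [dist_comm]
      exact hj)
    have h10 := hc j
    rw [← hFe j hw, ← hFe j hu] at h10
    simp only at h10
    have h11 := le_abs_self (dist (φ w) (φ (a j)) - dist (φ u) (φ (a j)))
    have h12 := dist_triangle (φ w) (φ (a j)) (φ u)
    rw [dist_comm (φ u) (φ (a j))] at h10 h11
    linarith
  · intro i ε hε
    filter_upwards [h6 i ε hε] with t ht j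
    have h7 : (⨆ l, |lineDeriv ℝ (F l) u (v i)|) = semi hF u (v i) := by
      rw [semi_apply, supD]
      refine iSup_congr fun l => ?_
      rw [(h5 l).lineDeriv_eq_fderiv]
    rw [h7] at ht
    exact ht j

end Pool.Agent.W63.LVFkir
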